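import Pool.Agent.helper52.DM.HullK

/-!
# The averaging argument with few atoms

`z i` are integral vectors with weights `p i` and mean `k e / t`, and `z i U ≥ k` on the family `F`.
If no `z i` satisfies `z i U ≤ k + (e U - t) + l` for all `U` in `F`, then each weight is at most
`k s / (t (s + 1 + l))` for the surplus `s = e U - t` of a violated set, and the variance of the mean
is at least `1 + l + s (1 - k / t)` on average.
-/

namespace Pool.Agent.helper52.DM

open Finset Pool.Agent.helper52.DJ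

variable {V ι : Type*} [Fintype V] [DecidableEq V] [Fintype ι]
variable {F : Set (Finset V)} {p : ι → ℝ} {z : ι → V → ℤ} {q m e : V → ℤ} {t k : ℤ}

/-- the hypotheses of the averaging argument -/
structure SysK (F : Set (Finset V)) (p : ι → ℝ) (z : ι → V → ℤ) (q m e : V → ℤ) (t k : ℤ) : Prop where
  ppos : ∀ i, 0 < p i
  psum : ∑ i, p i = 1
  k1 : 1 ≤ k
  kt : k < t
  m0 : ∀ v, 0 ≤ m v
  m1 : ∀ v, m v < t
  em : ∀ v, k * e v = t * q v + m v
  z01 : ∀ i v, z i v = q v ∨ z i v = q v + 1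
  zsum : ∀ i, ∑ v, z i v = 0
  zcut : ∀ i, ∀ U ∈ F, k ≤ ∑ v ∈ U, z i v
  avg : ∀ v, ∑ i, p i * z i v = q v + m v / t

/-- indicator of the rounded up vertices -/
noncomputable def ind (z : ι → V → ℤ) (q : V → ℤ) (i : ι) (v : V) : ℝ :=
  if z i v = q v then 0 else 1

lemma tposK (H : SysK F p z q m e t k) : (0 : ℝ) < t := by
  have h1 := H.k1
  have h2 := H.kt
  exact_mod_cast (by omega : (0 : ℤ) < t)

lemma z_ind (H : SysK F p z q m e t k) (i : ι) (v : V) : (z i v : ℝ) = q v + ind z q i v := by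
  unfold ind
  rcases H.z01 i v with h | h
  · rw [if_pos h, h, add_zero]
  · rw [if_neg (by omega), h]; push_cast; ring

lemma avg_ind (H : SysK F p z q m e t k) (v : V) : ∑ i, p i * ind z q i v = m v / t := by
  have h := H.avg v
  simp only [z_ind H, mul_add, sum_add_distrib, ← sum_mul, H.psum, one_mul] at h
  linarith

lemma avg_zK (H : SysK F p z q m e t k) (Z : Finset V) :
    ∑ i, p i * ((∑ v ∈ Z, z i v : ℤ) : ℝ) = (k : ℝ) * ((∑ v ∈ Z, e v : ℤ) : ℝ) / t := by
  have ht := tposK H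
  push_cast
  simp only [mul_sum]
  rw [sum_comm, sum_congr rfl fun v _ => H.avg v, sum_div]
  refine sum_congr rfl fun v _ => ?_
  have h : (k : ℝ) * e v = t * q v + m v := by exact_mod_cast H.em v
  rw [h]
  field_simp

lemma mean_eq (H : SysK F p z q m e t k) (Z : Finset V) :
    ∑ v ∈ Z, ((q v : ℝ) + m v / t) = (k : ℝ) * ((∑ v ∈ Z, e v : ℤ) : ℝ) / t := by
  have ht := tposK H
  push_cast
  rw [mul_sum, sum_div]
  refine sum_congr rfl fun v _ => ?_
  have h : (k : ℝ) * e v = t * q v + m v := by exact_mod_cast H.em v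
  rw [h]
  field_simp

lemma sum_qm (H : SysK F p z q m e t k) : ∑ v, ((q v : ℝ) + m v / t) = 0 := by
  have h := avg_zK H univ
  have h0 : ∀ i, ((∑ v, z i v : ℤ) : ℝ) = 0 := fun i => by rw [H.zsum i]; simp
  simp only [h0, mul_zero, sum_const_zero] at h
  rw [mean_eq H univ]
  exact h.symm

/-- the share that is rounded down -/
noncomputable def eps (z : ι → V → ℤ) (q m : V → ℤ) (t : ℤ) (i : ι) : ℝ :=
  ∑ v, (m v / t : ℝ) * (1 - ind z q i v)

lemma avg_eps (H : SysK F p z q m e t k) :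
    ∑ i, p i * eps z q m t i = ∑ v, (m v / t : ℝ) * (1 - m v / t) := by
  simp only [eps, mul_sum]
  rw [sum_comm]
  refine sum_congr rfl fun v _ => ?_
  have e : ∀ i, p i * ((m v / t : ℝ) * (1 - ind z q i v))
      = p i * (m v / t : ℝ) - (m v / t : ℝ) * (p i * ind z q i v) := fun i => by ring
  rw [sum_congr rfl fun i _ => e i, sum_sub_distrib, ← sum_mul, H.psum, ← mul_sum, avg_ind H v]
  ring

lemma le_eps (H : SysK F p z q m e t k) (i : ι) (U : Finset V) :
    ((∑ v ∈ U, z i v : ℤ) : ℝ) - ∑ v ∈ U, ((q v : ℝ) + m v / t) ≤ eps z q m t i := by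
  have ht := tposK H
  have h1 : ((∑ v ∈ U, z i v : ℤ) : ℝ) - ∑ v ∈ U, ((q v : ℝ) + m v / t)
      = ∑ v ∈ U, (ind z q i v - m v / t) := by
    push_cast
    rw [← sum_sub_distrib]
    exact sum_congr rfl fun v _ => by rw [z_ind H i v]; ring
  have h2 : ∑ v, (ind z q i v - m v / t) = 0 := by
    have e : ∀ v, (ind z q i v - m v / t) = (z i v : ℝ) - (q v + m v / t) := fun v => by
      rw [z_ind H i v]; ring
    rw [sum_congr rfl fun v _ => e v, sum_sub_distrib, sum_qm H, sub_zero]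
    have := H.zsum i
    exact_mod_cast this
  have h3 := sum_add_sum_compl U (fun v => (ind z q i v - m v / t : ℝ))
  have h4 : ∑ v ∈ U, (ind z q i v - m v / t) = ∑ v ∈ Uᶜ, ((m v / t : ℝ) - ind z q i v) := by
    have e : ∑ v ∈ Uᶜ, ((m v / t : ℝ) - ind z q i v) = - ∑ v ∈ Uᶜ, (ind z q i v - m v / t) := by
      rw [← sum_neg_distrib]
      exact sum_congr rfl fun v _ => by ring
    rw [e]
    linarith
  have hmt : ∀ v, (m v / t : ℝ) ≤ 1 := fun v => by
    rw [div_le_one ht]
    exact_mod_cast (H.m1 v).le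
  have hm0 : ∀ v, (0 : ℝ) ≤ m v / t := fun v => div_nonneg (by exact_mod_cast H.m0 v) ht.le
  have h5 : ∀ v, (m v / t : ℝ) - ind z q i v ≤ (m v / t : ℝ) * (1 - ind z q i v) := by
    intro v
    unfold ind
    split_ifs
    · simp
    · have := hmt v; linarith
  have h6 : ∀ v, 0 ≤ (m v / t : ℝ) * (1 - ind z q i v) := by
    intro v
    unfold ind
    split_ifs
    · simpa using hm0 v
    · simp
  rw [h1, h4]
  refine (sum_le_sum fun v _ => h5 v).trans ?_
  exact sum_le_sum_of_subset_of_nonneg (subset_univ _) fun v _ _ => h6 v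

/-- **The averaging theorem with few atoms** (with loss `l`). -/
theorem exists_good_index_few (H : SysK F p z q m e t k) (l K : ℤ) (hl : 0 ≤ l)
    (hK : (Fintype.card ι : ℤ) ≤ K)
    (hV : ∑ v, m v * (t - m v) < (2 + l) * t ^ 2 - k * t ∨
      (∑ v, m v * (t - m v) - (1 + l) * t ^ 2) * (k * K - t) < (1 + l) * t ^ 2 * (t - k)) :
    ∃ i, ∀ U ∈ F, ∑ v ∈ U, z i v ≤ k + (∑ v ∈ U, e v - t) + l := by
  classical
  by_contra hcon
  push Not at hcon
  choose U hU hbad using hcon
  have ht := tposK H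
  have hk1 : (1 : ℝ) ≤ k := by exact_mod_cast H.k1
  have hkt : (k : ℝ) < t := by exact_mod_cast H.kt
  have hk0 : (0 : ℝ) < k := by linarith
  have hl' : (0 : ℝ) ≤ l := by exact_mod_cast hl
  set s : ι → ℤ := fun i => ∑ v ∈ U i, e v - t with hs
  have hbadR : ∀ i, (k : ℝ) + s i + l + 1 ≤ ((∑ v ∈ U i, z i v : ℤ) : ℝ) := fun i => by
    have := hbad i
    have h2 : k + s i + l + 1 ≤ ∑ v ∈ U i, z i v := by simp only [hs]; omega
    exact_mod_cast h2
  have hmean : ∀ i, (k : ℝ) * ((∑ v ∈ U i, e v : ℤ) : ℝ) / t = k + k * s i / t := by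
    intro i
    simp only [hs]
    push_cast
    field_simp
    ring
  -- the weights
  have h3 : ∀ i, ∑ j, p j * (((∑ v ∈ U i, z j v : ℤ) : ℝ) - k) = k * s i / t := by
    intro i
    have h1 := avg_zK H (U i)
    rw [hmean i] at h1
    simp only [mul_sub, sum_sub_distrib, ← sum_mul, H.psum, h1]
    ring
  have hnn : ∀ i j, 0 ≤ p j * (((∑ v ∈ U i, z j v : ℤ) : ℝ) - k) := by
    intro i j
    have h5 := H.zcut j (U i) (hU i)
    have h6 : (k : ℝ) ≤ ((∑ v ∈ U i, z j v : ℤ) : ℝ) := by exact_mod_cast h5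
    exact mul_nonneg (H.ppos j).le (by linarith)
  have hA : ∀ i, p i * (s i + 1 + l) ≤ k * s i / t := by
    intro i
    have h4 : p i * (((∑ v ∈ U i, z i v : ℤ) : ℝ) - k) ≤ k * s i / t := by
      rw [← h3 i]
      exact single_le_sum (f := fun j => p j * (((∑ v ∈ U i, z j v : ℤ) : ℝ) - k))
        (fun j _ => hnn i j) (mem_univ i)
    refine le_trans (mul_le_mul_of_nonneg_left ?_ (H.ppos i).le) h4
    have h7 := hbadR i
    linarith
  have hs1 : ∀ i, 1 ≤ s i := by
    intro i
    have h5 : (0 : ℝ) ≤ k * s i / t := by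
      rw [← h3 i]
      exact sum_nonneg fun j _ => hnn i j
    have h6 : (0 : ℝ) ≤ s i := by
      by_contra hcon
      push Not at hcon
      have : (k : ℝ) * s i / t < 0 := div_neg_of_neg_of_pos (mul_neg_of_pos_of_neg hk0 hcon) ht
      linarith
    have h7 : 0 ≤ s i := by exact_mod_cast h6
    by_contra hcon
    have h8 : s i = 0 := by omega
    have h2 := hA i
    rw [h8] at h2
    have := H.ppos i
    simp at h2
    have : 0 < p i * (1 + l) := by positivity
    linarith
  have hs1' : ∀ i, (1 : ℝ) ≤ s i := fun i => by exact_mod_cast hs1 i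
  have hB : ∀ i, 1 + l + (s i : ℝ) * (1 - k / t) ≤ eps z q m t i := by
    intro i
    refine le_trans ?_ (le_eps H i (U i))
    rw [mean_eq H (U i), hmean i]
    have h7 := hbadR i
    have e : (k : ℝ) * s i / t = s i * (k / t) := by ring
    rw [e]
    linarith
  set X : ℝ := ∑ i, p i * s i with hX
  set W : ℝ := ∑ v, (m v / t : ℝ) * (1 - m v / t) with hW
  have hC : 1 + l + X * (1 - k / t) ≤ W := by
    rw [hW, ← avg_eps H]
    have e : 1 + l + X * (1 - k / t) = ∑ i, p i * (1 + l + (s i : ℝ) * (1 - k / t)) := by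
      simp only [mul_add, sum_add_distrib, mul_one, H.psum, hX, sum_mul, mul_assoc]
      rw [← sum_mul, H.psum, one_mul]
    rw [e]
    exact sum_le_sum fun i _ => mul_le_mul_of_nonneg_left (hB i) (H.ppos i).le
  have hX1 : 1 ≤ X := by
    rw [hX, ← H.psum]
    refine sum_le_sum fun i _ => ?_
    have := mul_le_mul_of_nonneg_left (hs1' i) (H.ppos i).le
    linarith
  have hWV : W * t ^ 2 = ((∑ v, m v * (t - m v) : ℤ) : ℝ) := by
    rw [hW, sum_mul]
    push_cast
    refine sum_congr rfl fun v _ => ?_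
    field_simp
  have e1 : (1 - k / (t : ℝ)) * t ^ 2 = t ^ 2 - k * t := by field_simp
  have hVlow : (1 + l : ℝ) * t ^ 2 + X * (t ^ 2 - k * t) ≤ ((∑ v, m v * (t - m v) : ℤ) : ℝ) := by
    rw [← hWV, ← e1]
    have := mul_le_mul_of_nonneg_right hC (sq_nonneg (t : ℝ))
    linarith
  have ht20 : (0 : ℝ) < t ^ 2 - k * t := by nlinarith
  -- number of atoms
  have hu : ∀ i, 0 < k - t * p i ∧ (1 + l) * ((t * p i) ^ 2 / (k - t * p i)) ≤ t * p i * s i := by
    intro i
    have h1 := hA i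
    rw [le_div_iff₀ ht] at h1
    have hp := H.ppos i
    have hsi := hs1' i
    have hp' : 0 < t * p i := mul_pos ht hp
    have h2 : (1 + l) * (t * p i) ≤ s i * (k - t * p i) := by nlinarith
    have h3 : 0 < k - t * p i := by
      by_contra hcon
      have h4 : (s i : ℝ) * (k - t * p i) ≤ 0 := mul_nonpos_of_nonneg_of_nonpos (by linarith) (not_lt.1 hcon)
      have h5 : 0 < (1 + l : ℝ) * (t * p i) := by positivity
      linarith
    refine ⟨h3, ?_⟩
    rw [mul_div_assoc', div_le_iff₀ h3]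
    have := mul_le_mul_of_nonneg_left h2 hp'.le
    nlinarith
  have hne : Nonempty ι := by
    by_contra hcon
    rw [not_nonempty_iff] at hcon
    have := H.psum
    simp at this
  have hMt : ∑ i, (k - t * p i) = k * (Fintype.card ι : ℝ) - t := by
    rw [sum_sub_distrib, ← mul_sum, H.psum]
    simp
    ring
  have hMpos : 0 < k * (Fintype.card ι : ℝ) - t := by
    rw [← hMt]
    exact sum_pos (fun i _ => (hu i).1) univ_nonempty
  have hTitu := sq_sum_div_le_sum_sq_div univ (fun i => t * p i) (g := fun i => k - t * p i)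
    (fun i _ => (hu i).1)
  have hle : (1 + l) * ∑ i, (t * p i) ^ 2 / (k - t * p i) ≤ t * X := by
    rw [hX, mul_sum, mul_sum]
    refine sum_le_sum fun i _ => ((hu i).2).trans (le_of_eq (by ring))
  rw [hMt, ← mul_sum, H.psum, mul_one] at hTitu
  have hT : (1 + l) * (t : ℝ) ≤ X * (k * (Fintype.card ι : ℝ) - t) := by
    have h0 := mul_le_mul_of_nonneg_left hTitu (by linarith : (0 : ℝ) ≤ 1 + l)
    have h1 := h0.trans hle
    rw [mul_div_assoc', div_le_iff₀ hMpos] at h1
    have h2 : (t : ℝ) * ((1 + l) * t) ≤ t * (X * (k * (Fintype.card ι : ℝ) - t)) := by nlinarith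
    exact le_of_mul_le_mul_left h2 ht
  rcases hV with hV | hV
  · have h1 : ((∑ v, m v * (t - m v) : ℤ) : ℝ) < (2 + l) * t ^ 2 - k * t := by exact_mod_cast hV
    nlinarith
  · have h1 : (((∑ v, m v * (t - m v) : ℤ) : ℝ) - (1 + l) * t ^ 2) * (k * K - t)
        < (1 + l) * t ^ 2 * (t - k) := by
      exact_mod_cast hV
    have hKR : k * (Fintype.card ι : ℝ) ≤ k * K := mul_le_mul_of_nonneg_left (by exact_mod_cast hK) hk0.le
    have h2 : X * (t ^ 2 - k * t) ≤ ((∑ v, m v * (t - m v) : ℤ) : ℝ) - (1 + l) * t ^ 2 := by linarith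
    have h3 : 0 ≤ X * ((t : ℝ) ^ 2 - k * t) := mul_nonneg (by linarith) ht20.le
    have h4 : X * (t ^ 2 - k * t) * (k * (Fintype.card ι : ℝ) - t)
        ≤ (((∑ v, m v * (t - m v) : ℤ) : ℝ) - (1 + l) * t ^ 2) * (k * K - t) :=
      mul_le_mul h2 (by linarith) hMpos.le (h3.trans h2)
    have h5 : (1 + l) * (t : ℝ) * (t ^ 2 - k * t)
        ≤ X * (t ^ 2 - k * t) * (k * (Fintype.card ι : ℝ) - t) := by
      have := mul_le_mul_of_nonneg_right hT ht20.le
      linarith
    have h6 : (1 + l) * (t : ℝ) * (t ^ 2 - k * t) = (1 + l) * t ^ 2 * (t - k) := by ring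
    linarith

end Pool.Agent.helper52.DM
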