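import Pool.Agent.helper52.DM.Small
import Pool.Agent.helper52.DJ.Final

/-!
# Few vertices with nonzero residue: decomposition, packing, minimally non-packing clutters
-/

namespace Pool.Agent.helper52.DM

open Finset Pool.Agent.helper52.DJ

universe u

variable {V : Type u} {A : Type*} [Fintype V] [DecidableEq V] [Fintype A] [DecidableEq A]

/-- the vertices whose net outflow is not divisible by `g` -/
def nres (D : DG V A) (w : A → ℕ) (g : ℕ) : Finset V := univ.filter fun v => ¬ (g : ℤ) ∣ D.dem w v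

omit [DecidableEq A] in
lemma four_vari_le (D : DG V A) (w : A → ℕ) (τ k : ℕ) :
    4 * vari D w τ k ≤ (res D w τ k).card * (τ : ℤ) ^ 2 := by
  have h : ∀ v, v ∉ res D w τ k → (k * D.dem w v) % (τ : ℤ) = 0 := by
    intro v hv
    simp only [res, mem_filter, mem_univ, true_and, not_not] at hv
    exact Int.emod_eq_zero_of_dvd hv
  have e : vari D w τ k
      = ∑ v ∈ res D w τ k, (k * D.dem w v) % (τ : ℤ) * ((τ : ℤ) - (k * D.dem w v) % (τ : ℤ)) := by
    rw [vari]
    symm
    refine sum_subset (subset_univ _) fun v _ hv => ?_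
    rw [h v hv, zero_mul]
  rw [e, mul_sum]
  have h1 : ∀ v ∈ res D w τ k,
      4 * ((k * D.dem w v) % (τ : ℤ) * ((τ : ℤ) - (k * D.dem w v) % (τ : ℤ))) ≤ (τ : ℤ) ^ 2 := by
    intro v _
    nlinarith [sq_nonneg ((τ : ℤ) - 2 * ((k * D.dem w v) % (τ : ℤ)))]
  calc ∑ v ∈ res D w τ k, 4 * ((k * D.dem w v) % (τ : ℤ) * ((τ : ℤ) - (k * D.dem w v) % (τ : ℤ)))
      ≤ ∑ _v ∈ res D w τ k, (τ : ℤ) ^ 2 := sum_le_sum h1
    _ = (res D w τ k).card * (τ : ℤ) ^ 2 := by rw [sum_const, nsmul_eq_mul]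

omit [DecidableEq A] in
lemma res_mul (D : DG V A) (w : A → ℕ) (g k : ℕ) (hk : 1 ≤ k) : res D w (g * k) k = nres D w g := by
  ext v
  simp only [res, nres, mem_filter, mem_univ, true_and]
  have hk' : (k : ℤ) ≠ 0 := by exact_mod_cast (by omega : k ≠ 0)
  rw [Nat.cast_mul, mul_comm (g : ℤ) k, mul_dvd_mul_iff_left hk']

/-- at most `g + 3` vertices whose net outflow is not divisible by `g` -/
theorem decomposition_div (D : DG V A) (w : A → ℕ) (g k : ℕ) (hg : 2 ≤ g) (hk : 1 ≤ k)
    (hcut : ∀ U, D.IsShore U → g * k ≤ D.wt w U) (hc : (nres D w g).card ≤ g + 3) :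
    ∃ c c' : A → ℕ, (∀ a, w a = c a + c' a) ∧ (∀ U, D.IsShore U → k ≤ D.wt c U) ∧
      (∀ U, D.IsShore U → g * k ≤ D.wt c' U + k) ∧ Equi D w (g * k) k c := by
  classical
  have hkτ : k < g * k := by nlinarith
  have hg' : (2 : ℤ) ≤ g := by exact_mod_cast hg
  have hk' : (1 : ℤ) ≤ k := by exact_mod_cast hk
  have hτ' : (2 : ℤ) ≤ ((g * k : ℕ) : ℤ) := by push_cast; nlinarith
  by_cases hlow : vari D w (g * k) k < 2 * ((g * k : ℕ) : ℤ) ^ 2 - k * ((g * k : ℕ) : ℤ)
  · have := decomposition_few D w (g * k) k 0 hk hkτ hcut ∅ (by simp) (by simp) (Or.inl (by simpa using hlow))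
    simpa using this
  · rw [not_lt] at hlow
    have h4 := four_vari_le D w (g * k) k
    rw [res_mul D w g k hk] at h4
    have hsq : (0 : ℤ) < ((g * k : ℕ) : ℤ) ^ 2 := by positivity
    have hkg : (k : ℤ) * ((g * k : ℕ) : ℤ) ≤ ((g * k : ℕ) : ℤ) ^ 2 := by
      have : (k : ℤ) ≤ ((g * k : ℕ) : ℤ) := by exact_mod_cast hkτ.le
      nlinarith
    have hne : (nres D w g).Nonempty := by
      rw [← card_pos]
      by_contra hcon
      have h0 : (nres D w g).card = 0 := by omega
      rw [h0] at h4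
      simp only [Nat.cast_zero, zero_mul] at h4
      linarith
    obtain ⟨v0, hv0⟩ := hne
    have := decomposition_few D w (g * k) k 0 hk hkτ hcut {v0}
      (by rw [res_mul D w g k hk]; simpa using hv0)
      (fun u hu v hv _ => by rw [mem_singleton] at hu hv; rw [hu, hv]) (Or.inr (by
        rw [card_singleton, res_mul D w g k hk]
        set n : ℤ := ((nres D w g).card : ℤ) with hn
        have hnc : n ≤ g + 3 := by rw [hn]; exact_mod_cast hc
        set T : ℤ := ((g * k : ℕ) : ℤ) with hT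
        have hTk : T = g * k := by rw [hT]; push_cast; ring
        have e : (k : ℤ) * (n + 1 - ((1 : ℕ) : ℤ)) - T = k * (n - g) := by rw [hTk]; push_cast; ring
        rw [e]
        have hp : 0 ≤ vari D w (g * k) k - T ^ 2 := by linarith
        have e2 : T - k = k * (g - 1) := by rw [hTk]; ring
        have hr : 0 < T ^ 2 * (T - k) := by
          rw [e2]
          have : (0 : ℤ) < g - 1 := by linarith
          positivity
        simp only [Nat.cast_zero, add_zero, one_mul]
        by_cases hj : n - g ≤ 0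
        · have h5 : (k : ℤ) * (n - g) ≤ 0 := mul_nonpos_of_nonneg_of_nonpos (by linarith) hj
          have := mul_nonpos_of_nonneg_of_nonpos hp h5
          linarith
        · rw [not_le] at hj
          have h5 : 4 * (vari D w (g * k) k - T ^ 2) ≤ (g - 1) * T ^ 2 := by nlinarith
          have h6 : (vari D w (g * k) k - T ^ 2) * (k * (n - g)) ≤ (vari D w (g * k) k - T ^ 2) * (3 * k) :=
            mul_le_mul_of_nonneg_left (by nlinarith) hp
          have h7 : 4 * ((vari D w (g * k) k - T ^ 2) * (3 * k)) ≤ 3 * (T ^ 2 * (T - k)) := by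
            rw [e2]
            nlinarith
          linarith))
    simpa using this

/-- equitable for `w / τ` -/
def Eq1 (D : DG V A) (w : A → ℕ) (τ : ℕ) (c : A → ℕ) : Prop :=
  ∀ v, D.dem w v / (τ : ℤ) ≤ D.dem c v ∧
    D.dem c v ≤ D.dem w v / (τ : ℤ) + if D.dem w v % (τ : ℤ) = 0 then 0 else 1

/-- at most `τ + 3` vertices with nonzero residue -/
theorem decomposition_card (D : DG V A) (w : A → ℕ) (τ : ℕ) (hτ : 2 ≤ τ)
    (hcut : ∀ U, D.IsShore U → τ ≤ D.wt w U) (hc : (nres D w τ).card ≤ τ + 3) :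
    ∃ c c' : A → ℕ, (∀ a, w a = c a + c' a) ∧ (∀ U, D.IsShore U → 1 ≤ D.wt c U) ∧
      (∀ U, D.IsShore U → τ ≤ D.wt c' U + 1) ∧ Eq1 D w τ c := by
  have := decomposition_div D w τ 1 hτ le_rfl (by simpa using hcut) hc
  simpa [Equi, Eq1] using this

/-- a decomposition with loss for at most `4 (l + 1)` vertices -/
theorem decomposition_loss (D : DG V A) (w : A → ℕ) (τ l : ℕ) (hτ : 2 ≤ τ)
    (hcut : ∀ U, D.IsShore U → τ ≤ D.wt w U) (hc : Fintype.card V ≤ 4 * (l + 1)) :
    ∃ c c' : A → ℕ, (∀ a, w a = c a + c' a) ∧ (∀ U, D.IsShore U → 1 ≤ D.wt c U) ∧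
      (∀ U, D.IsShore U → τ ≤ D.wt c' U + 1 + l) ∧ Equi D w τ 1 c := by
  refine decomposition_few D w τ 1 l le_rfl (by omega) hcut ∅ (by simp) (by simp) (Or.inl ?_)
  have h4 := four_vari_le D w τ 1
  have h5 : ((res D w τ 1).card : ℤ) ≤ 4 * (l + 1) := by
    have h6 : (res D w τ 1).card ≤ Fintype.card V := card_le_univ _
    exact_mod_cast h6.trans hc
  have h7 : ((res D w τ 1).card : ℤ) * (τ : ℤ) ^ 2 ≤ 4 * (l + 1) * (τ : ℤ) ^ 2 :=
    mul_le_mul_of_nonneg_right h5 (sq_nonneg _)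
  have hτ' : (2 : ℤ) ≤ τ := by exact_mod_cast hτ
  push_cast
  nlinarith

/-- the conditions for levels at least `T` -/
def Cond (D : DG V A) (w : A → ℕ) (τ T : ℕ) : Prop :=
  (nres D w τ).card ≤ T + 3 ∨
    (D.rho w τ * (D.rho w τ - 2) ≤ T ∨ 4 * (D.rho w τ - 2) ≤ T) ∨
    (D.rev.rho w τ * (D.rev.rho w τ - 2) ≤ T ∨ 4 * (D.rev.rho w τ - 2) ≤ T)

lemma neg_ediv (t d : ℤ) (ht : 0 < t) :
    (d % t = 0 ∧ (-d) / t = -(d / t) ∧ (-d) % t = 0) ∨
      (0 < d % t ∧ (-d) / t = -(d / t) - 1 ∧ (-d) % t = t - d % t) := by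
  have e1 := Int.mul_ediv_add_emod d t
  have e2 := Int.mul_ediv_add_emod (-d) t
  have l1 := Int.emod_nonneg d ht.ne'
  have l2 := Int.emod_lt_of_pos d ht
  have l3 := Int.emod_nonneg (-d) ht.ne'
  have l4 := Int.emod_lt_of_pos (-d) ht
  have s1 : t * (d / t + -d / t) = -(d % t + -d % t) := by rw [mul_add]; linarith
  have k2 : -2 < d / t + -d / t := by nlinarith
  have k1 : d / t + -d / t ≤ 0 := by nlinarith
  have k3 : d / t + -d / t = 0 ∨ d / t + -d / t = -1 := by omega
  rcases k3 with k3 | k3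
  · rw [k3, mul_zero] at s1
    left
    omega
  · rw [k3] at s1
    right
    refine ⟨?_, by omega, by omega⟩
    by_contra hcon
    have : d % t = 0 := by omega
    omega

omit [Fintype V] in
lemma equi_of_rev (D : DG V A) (w : A → ℕ) (τ : ℕ) (hτ : τ ≠ 0) (c : A → ℕ) (h : Eq1 D.rev w τ c) :
    Eq1 D w τ c := by
  intro v
  have ht : (0 : ℤ) < τ := by exact_mod_cast Nat.pos_of_ne_zero hτ
  obtain ⟨h1, h2⟩ := h v
  rw [dem_rev, dem_rev] at h1 h2
  rcases neg_ediv (τ : ℤ) (D.dem w v) ht with ⟨a1, a2, a3⟩ | ⟨a1, a2, a3⟩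
  · rw [if_pos a3] at h2
    rw [if_pos a1]
    omega
  · have hm := Int.emod_lt_of_pos (D.dem w v) ht
    rw [if_neg (by omega)] at h2
    rw [if_neg (by omega)]
    omega

theorem decomposition_cond (D : DG V A) (w : A → ℕ) (τ T : ℕ) (hτ : 2 ≤ τ) (hT : T ≤ τ)
    (hcut : ∀ U, D.IsShore U → τ ≤ D.wt w U) (hc : Cond D w τ T) :
    ∃ c c' : A → ℕ, (∀ a, w a = c a + c' a) ∧ (∀ U, D.IsShore U → 1 ≤ D.wt c U) ∧
      (∀ U, D.IsShore U → τ ≤ D.wt c' U + 1) ∧ Eq1 D w τ c := by
  have hT' : (T : ℤ) ≤ τ := by exact_mod_cast hT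
  rcases hc with hc | hc | hc
  · exact decomposition_card D w τ hτ hcut (by omega)
  · obtain ⟨c, c', h1, h2, h3, h4⟩ := decomposition D w τ hτ hcut
      (hc.imp (fun h => h.trans hT') (fun h => h.trans hT'))
    exact ⟨c, c', h1, h2, fun U hU => by have := h3 U hU; omega, h4⟩
  · have hminr : ∀ U, D.rev.IsShore U → τ ≤ D.rev.wt w U := by
      intro U hU
      have e : U = univ \ (univ \ U) := by simp
      rw [e] at hU ⊢
      rw [wt_rev]
      exact hcut _ ((isShore_rev D _).1 hU)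
    obtain ⟨c, c', h1, h3, h4, h5⟩ := decomposition D.rev w τ hτ hminr
      (hc.imp (fun h => h.trans hT') (fun h => h.trans hT'))
    refine ⟨c, c', h1, fun U hU => ?_, fun U hU => ?_, equi_of_rev D w τ (by omega) c h5⟩
    · have := h3 _ ((isShore_rev D U).2 hU)
      rwa [wt_rev] at this
    · have := h4 _ ((isShore_rev D U).2 hU)
      rw [wt_rev] at this
      omega

omit [Fintype V] [DecidableEq A] in
lemma dem_add (D : DG V A) (w c c' : A → ℕ) (h : ∀ a, w a = c a + c' a) (v : V) :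
    D.dem w v = D.dem c v + D.dem c' v := by
  have e : (fun a => (w a : ℤ)) = (fun a => (c a : ℤ)) + fun a => (c' a : ℤ) := by
    funext a
    simp [h a]
  rw [DG.dem, e, net_add]
  rfl

/-- the residues and both residue sums do not increase -/
lemma cond_mono (D : DG V A) (w c c' : A → ℕ) (τ T : ℕ) (h : ∀ a, w a = c a + c' a)
    (hE : Eq1 D w (τ + 1) c) (hτ : 1 ≤ τ) (hc : Cond D w (τ + 1) T) : Cond D c' τ T := by
  classical
  have ht : (0 : ℤ) < τ := by exact_mod_cast hτ
  have ht1 : (0 : ℤ) < ((τ + 1 : ℕ) : ℤ) := by exact_mod_cast Nat.succ_pos τ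
  have hd : ∀ v, D.dem c' v = D.dem w v - D.dem c v := fun v => by rw [dem_add D w c c' h v]; ring
  -- lower bounds for the quotients
  have hq : ∀ v, D.dem w v / ((τ + 1 : ℕ) : ℤ) ≤ D.dem c' v / (τ : ℤ) := by
    intro v
    rw [Int.le_ediv_iff_mul_le ht, hd v]
    have e1 := Int.mul_ediv_add_emod (D.dem w v) ((τ + 1 : ℕ) : ℤ)
    have l1 := Int.emod_nonneg (D.dem w v) ht1.ne'
    obtain ⟨h1, h2⟩ := hE v
    push_cast at *
    split_ifs at h2 with hm
    · nlinarith
    · have h3 : 1 ≤ D.dem w v % ((τ : ℤ) + 1) := by omega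
      nlinarith
  have hq' : ∀ v, D.rev.dem w v / ((τ + 1 : ℕ) : ℤ) ≤ D.rev.dem c' v / (τ : ℤ) := by
    intro v
    rw [Int.le_ediv_iff_mul_le ht, dem_rev, dem_rev, hd v]
    have e1 := Int.mul_ediv_add_emod (D.dem w v) ((τ + 1 : ℕ) : ℤ)
    have l1 := Int.emod_nonneg (D.dem w v) ht1.ne'
    have l2 := Int.emod_lt_of_pos (D.dem w v) ht1
    obtain ⟨h1, h2⟩ := hE v
    rcases neg_ediv ((τ + 1 : ℕ) : ℤ) (D.dem w v) ht1 with ⟨a1, a2, a3⟩ | ⟨a1, a2, a3⟩
    · rw [if_pos a1] at h2
      rw [a2]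
      push_cast at *
      nlinarith
    · rw [a2]
      push_cast at *
      nlinarith
  have hrho : D.rho c' τ ≤ D.rho w (τ + 1) := by
    rw [rho_eq D c' τ (by omega), rho_eq D w (τ + 1) (by omega)]
    exact neg_le_neg (sum_le_sum fun v _ => hq v)
  have hrho' : D.rev.rho c' τ ≤ D.rev.rho w (τ + 1) := by
    rw [rho_eq D.rev c' τ (by omega), rho_eq D.rev w (τ + 1) (by omega)]
    exact neg_le_neg (sum_le_sum fun v _ => hq' v)
  have hres : nres D c' τ ⊆ nres D w (τ + 1) := by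
    intro v hv
    simp only [nres, mem_filter, mem_univ, true_and] at hv ⊢
    intro hdvd
    apply hv
    have hm : D.dem w v % ((τ + 1 : ℕ) : ℤ) = 0 := Int.emod_eq_zero_of_dvd hdvd
    obtain ⟨h1, h2⟩ := hE v
    rw [if_pos hm] at h2
    have e1 := Int.mul_ediv_add_emod (D.dem w v) ((τ + 1 : ℕ) : ℤ)
    refine ⟨D.dem w v / ((τ + 1 : ℕ) : ℤ), ?_⟩
    rw [hd v]
    push_cast at *
    linarith
  have hnn : ∀ (D' : DG V A) (x : A → ℕ) (k : ℕ), 0 ≤ D'.rho x k := by
    intro D' x k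
    rw [DG.rho]
    rcases Nat.eq_zero_or_pos k with hk | hk
    · subst hk; simp
    · apply Int.ediv_nonneg
      · exact sum_nonneg fun v _ => Int.emod_nonneg _ (by omega)
      · omega
  have hprod : ∀ r r' : ℤ, 0 ≤ r → r ≤ r' → r' * (r' - 2) ≤ T → r * (r - 2) ≤ T := by
    intro r r' h0 hr hr'
    have hT0 : (0 : ℤ) ≤ T := Int.natCast_nonneg T
    by_cases h2 : r ≤ 2
    · have : r * (r - 2) ≤ 0 := mul_nonpos_of_nonneg_of_nonpos h0 (by linarith)
      linarith
    · nlinarith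
  rcases hc with hc | hc | hc
  · exact Or.inl ((card_le_card hres).trans hc)
  · right; left
    rcases hc with hc | hc
    · exact Or.inl (hprod _ _ (hnn D c' τ) hrho hc)
    · exact Or.inr (by linarith)
  · right; right
    rcases hc with hc | hc
    · exact Or.inl (hprod _ _ (hnn D.rev c' τ) hrho' hc)
    · exact Or.inr (by linarith)

/-- `w` packs `r` dijoins: there are `r` dijoins (repetitions allowed) such that every arc `a` is in
at most `w a` of them -/
def PacksDijoins (D : DG V A) (w : A → ℕ) (r : ℕ) : Prop :=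
  ∃ J : Fin r → Finset A, (∀ i, D.IsDijoin (J i)) ∧ ∀ a, (univ.filter fun i => a ∈ J i).card ≤ w a

lemma packs_zero (D : DG V A) (w : A → ℕ) : PacksDijoins D w 0 :=
  ⟨fun i => i.elim0, fun i => i.elim0, fun a => by simp⟩

lemma isDijoin_supp (D : DG V A) (c : A → ℕ) (h : ∀ U, D.IsShore U → 1 ≤ D.wt c U) :
    D.IsDijoin (univ.filter fun a => 1 ≤ c a) := by
  intro U hU
  by_contra hcon
  rw [not_nonempty_iff_eq_empty] at hcon
  have : D.wt c U = 0 := by
    rw [DG.wt]
    refine sum_eq_zero fun a ha => ?_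
    by_contra hne
    have : a ∈ D.out U ∩ univ.filter fun a => 1 ≤ c a := by
      rw [mem_inter, mem_filter]
      exact ⟨ha, mem_univ _, by omega⟩
    rw [hcon] at this
    exact absurd this (notMem_empty _)
  have := h U hU
  omega

lemma packs_succ (D : DG V A) (w c c' : A → ℕ) (r : ℕ) (h : ∀ a, w a = c a + c' a)
    (hc : ∀ U, D.IsShore U → 1 ≤ D.wt c U) (hp : PacksDijoins D c' r) : PacksDijoins D w (r + 1) := by
  obtain ⟨J, hJ, hJw⟩ := hp
  refine ⟨Fin.cons (univ.filter fun a => 1 ≤ c a) J, ?_, ?_⟩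
  · intro i
    refine Fin.cases ?_ (fun i => ?_) i
    · rw [Fin.cons_zero]; exact isDijoin_supp D c hc
    · rw [Fin.cons_succ]; exact hJ i
  · intro a
    have h4 : (univ.filter fun i => a ∈ (Fin.cons (univ.filter fun a => 1 ≤ c a) J : Fin (r + 1) → Finset A) i).card
        = (if 1 ≤ c a then 1 else 0) + (univ.filter fun i => a ∈ J i).card := by
      rw [card_filter, Fin.sum_univ_succ, card_filter]
      simp
    rw [h4, h a]
    have := hJw a
    split_ifs <;> omega

lemma packs_one' (D : DG V A) (w : A → ℕ) (h : ∀ U, D.IsShore U → 1 ≤ D.wt w U) : PacksDijoins D w 1 :=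
  packs_succ D w w (fun _ => 0) 0 (fun a => by simp) h (packs_zero D _)

/-- **Packing up to an additive constant.** -/
theorem packing_add (D : DG V A) (T : ℕ) : ∀ (τ r : ℕ) (w : A → ℕ),
    (∀ U, D.IsShore U → τ ≤ D.wt w U) → r ≤ τ → r + T ≤ τ + 2 → Cond D w τ T → PacksDijoins D w r := by
  intro τ
  induction τ with
  | zero =>
    intro r w _ hr _ _
    have h0 : r = 0 := by omega
    subst h0
    exact packs_zero D w
  | succ τ ih =>
    intro r w hcut hr hrn hc
    rcases Nat.lt_or_ge r 2 with h2 | h2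
    · rcases Nat.eq_zero_or_pos r with h0 | h0
      · subst h0
        exact packs_zero D w
      · have h1 : r = 1 := by omega
        subst h1
        exact packs_one' D w fun U hU => by have := hcut U hU; omega
    · obtain ⟨c, c', hcc, h1, h3, hE⟩ := decomposition_cond D w (τ + 1) T (by omega) (by omega) hcut hc
      obtain ⟨r', rfl⟩ : ∃ r', r = r' + 1 := ⟨r - 1, by omega⟩
      refine packs_succ D w c c' r' hcc h1 (ih r' c' (fun U hU => ?_) (by omega) (by omega)
        (cond_mono D w c c' τ T hcc hE (by omega) hc))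
      have := h3 U hU
      omega

/-- **Packing up to a constant factor.** -/
theorem packing_mul (D : DG V A) (g : ℕ) (hg : Fintype.card V ≤ 4 * g) : ∀ (r τ : ℕ) (w : A → ℕ),
    (∀ U, D.IsShore U → τ ≤ D.wt w U) → r * g < τ + g → PacksDijoins D w r := by
  intro r
  induction r with
  | zero => exact fun τ w _ _ => packs_zero D w
  | succ r ih =>
    intro τ w hcut h
    rw [Nat.succ_mul] at h
    rcases Nat.eq_zero_or_pos r with h0 | h0
    · subst h0
      exact packs_one' D w fun U hU => by have := hcut U hU; omega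
    · rcases Nat.eq_zero_or_pos g with hg0 | hg0
      · -- no vertices
        subst hg0
        have hV : IsEmpty V := Fintype.card_eq_zero_iff.1 (by omega)
        refine ⟨fun _ => ∅, fun _ U hU => ?_, fun a => by simp⟩
        exact absurd hU.1 (by rw [not_nonempty_iff_eq_empty]; exact Finset.eq_empty_of_isEmpty U)
      · have hr : g ≤ r * g := Nat.le_mul_of_pos_left g h0
        obtain ⟨c, c', hcc, h1, h3, _⟩ := decomposition_loss D w τ (g - 1) (by omega) hcut (by omega)
        refine packs_succ D w c c' r hcc h1 (ih (τ - g) c' (fun U hU => ?_) (by omega))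
        have := h3 U hU
        omega

/-- A minimally non-packing clutter `C(D, w)` has no decomposition of `w`. -/
theorem no_decompositionK (D : DG V A) (w : A → ℕ) (hC : (D.clutter w).MinNonPacking) (τ k : ℕ)
    (hk1 : 1 ≤ k) (hkτ : k < τ) {U0 : Finset V} (hU0 : D.IsShore U0) (hU0w : D.wt w U0 = τ) (c c' : A → ℕ)
    (hcc : ∀ a, w a = c a + c' a) (hc : ∀ U, D.IsShore U → k ≤ D.wt c U)
    (hc' : ∀ U, D.IsShore U → τ - k ≤ D.wt c' U) : False := by
  classical
  set u : A × ℕ → ℕ∞ := fun e => if e.2 < c e.1 then 1 else 0 with hu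
  set u' : A × ℕ → ℕ∞ := fun e => if e.2 < c e.1 then 0 else 1 with hu'
  have hpos : ∀ x : A → ℕ, 1 ≤ D.wt x U0 → ∃ a, 1 ≤ x a := by
    intro x hx
    by_contra hcon
    push Not at hcon
    have : D.wt x U0 = 0 := sum_eq_zero fun a _ => by have := hcon a; omega
    omega
  obtain ⟨a, ha⟩ := hpos c (hk1.trans (hc U0 hU0))
  obtain ⟨b, hb⟩ := hpos c' (by have := hc' U0 hU0; omega)
  have h1 : (D.clutter w).tau u = (D.clutter w).nu u := by
    refine hC.eq_of_ne_one u (fun e => ?_) (e := (b, c b)) ((mem_ground D w _).2 ?_) ?_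
    · simp only [hu]; split_ifs
      · exact Or.inr (Or.inl rfl)
      · exact Or.inl rfl
    · have := hcc b
      change c b < w b
      omega
    · simp [hu]
  have h2 : (D.clutter w).tau u' = (D.clutter w).nu u' := by
    refine hC.eq_of_ne_one u' (fun e => ?_) (e := (a, 0)) ((mem_ground D w _).2 ?_) ?_
    · simp only [hu']; split_ifs
      · exact Or.inl rfl
      · exact Or.inr (Or.inl rfl)
    · have := hcc a
      change 0 < w a
      omega
    · have : 0 < c a := by omega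
      simp [hu', this]
  have t1 : ((k : ℕ) : ℕ∞) ≤ (D.clutter w).tau u := by
    refine le_tau_clutter D w u _ fun U hU => ?_
    have e : ∑ a ∈ D.out U, ∑ i ∈ range (w a), u (a, i) = ((D.wt c U : ℕ) : ℕ∞) := by
      rw [DG.wt, Nat.cast_sum]
      refine sum_congr rfl fun a _ => ?_
      simp only [hu]
      exact sum_ind (w a) (c a) (by have := hcc a; omega)
    rw [e]
    exact_mod_cast hc U hU
  have t2 : ((τ - k : ℕ) : ℕ∞) ≤ (D.clutter w).tau u' := by
    refine le_tau_clutter D w u' _ fun U hU => ?_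
    have e : ∑ a ∈ D.out U, ∑ i ∈ range (w a), u' (a, i) = ((D.wt c' U : ℕ) : ℕ∞) := by
      rw [DG.wt, Nat.cast_sum]
      refine sum_congr rfl fun a _ => ?_
      simp only [hu']
      exact sum_ind' (w a) (c a) (c' a) (hcc a)
    rw [e]
    exact_mod_cast hc' U hU
  rw [h1] at t1
  rw [h2] at t2
  have p1 := Clutter.packs_of_le_nu t1
  have p2 := Clutter.packs_of_le_nu t2
  have p : (D.clutter w).Packs (fun _ => 1) (k + (τ - k)) := p1.add p2 (fun e _ => by
    simp only [hu, hu']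
    split_ifs <;> simp)
  have hn := (D.clutter w).le_nu _ p
  have e : k + (τ - k) = τ := by omega
  rw [e] at hn
  have ht := tau_clutter_le D w hU0
  rw [hU0w] at ht
  exact hC.tau_ne_nu (le_antisymm (ht.trans hn) ((D.clutter w).nu_le_tau _))

/-- **Minimally non-packing clutters of minimal dijoins** without a dicut of weight `2`. -/
theorem gap (D : DG V A) (w : A → ℕ) (hC : (D.clutter w).MinNonPacking)
    (h2 : ∀ U, D.IsShore U → D.wt w U ≠ 2) :
    ∃ τ : ℕ, 3 ≤ τ ∧ (∀ U, D.IsShore U → τ ≤ D.wt w U) ∧ (∃ U, D.IsShore U ∧ D.wt w U = τ) ∧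
      (∀ g, 2 ≤ g → g ∣ τ → g + 4 ≤ (nres D w g).card) ∧
      ∀ k, 1 ≤ k → k < τ → 2 * (τ : ℤ) ^ 2 - k * τ ≤ vari D w τ k ∧
        ∀ S : Finset V, S ⊆ res D w τ k → (∀ u ∈ S, ∀ v ∈ S, Conn D w u v → u = v) →
          (τ : ℤ) ^ 2 * (τ - k)
            ≤ (vari D w τ k - (τ : ℤ) ^ 2) * (k * ((res D w τ k).card + 1 - S.card) - τ) := by
  classical
  obtain ⟨⟨U1, hU1⟩, htwo⟩ := two_le_of_minNonPacking D w hC
  obtain ⟨U0, hU0, hmin⟩ := exists_min_image (univ.filter fun U => D.IsShore U) (D.wt w)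
    ⟨U1, by rw [mem_filter]; exact ⟨mem_univ _, hU1⟩⟩
  rw [mem_filter] at hU0
  set τ := D.wt w U0 with hτ
  have hτ3 : 3 ≤ τ := by
    have := htwo U0 hU0.2
    have := h2 U0 hU0.2
    omega
  have hmin' : ∀ U, D.IsShore U → τ ≤ D.wt w U := fun U hU =>
    hmin U (by rw [mem_filter]; exact ⟨mem_univ _, hU⟩)
  have key : ∀ k, 1 ≤ k → k < τ → ¬ ∃ c c' : A → ℕ, (∀ a, w a = c a + c' a) ∧
      (∀ U, D.IsShore U → k ≤ D.wt c U) ∧ (∀ U, D.IsShore U → τ ≤ D.wt c' U + k) ∧ Equi D w τ k c := by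
    rintro k hk1 hkτ ⟨c, c', h1, h3, h4, _⟩
    exact no_decompositionK D w hC τ k hk1 hkτ hU0.2 hτ.symm c c' h1 h3
      (fun U hU => by have := h4 U hU; omega)
  refine ⟨τ, hτ3, hmin', ⟨U0, hU0.2, rfl⟩, ?_, fun k hk1 hkτ => ⟨?_, fun S hSr hS => ?_⟩⟩
  · rintro g hg ⟨k, hk⟩
    by_contra hcon
    have hk1 : 1 ≤ k := by
      rcases Nat.eq_zero_or_pos k with h | h
      · subst h; omega
      · exact h
    have hkτ : k < τ := by rw [hk]; nlinarith
    apply key k hk1 hkτ
    have := decomposition_div D w g k hg hk1 (by rw [← hk]; exact hmin') (by omega)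
    rwa [← hk] at this
  · by_contra hcon
    rw [not_le] at hcon
    apply key k hk1 hkτ
    have := decomposition_few D w τ k 0 hk1 hkτ hmin' ∅ (by simp) (by simp) (Or.inl (by simpa using hcon))
    simpa using this
  · by_contra hcon
    rw [not_le] at hcon
    apply key k hk1 hkτ
    have := decomposition_few D w τ k 0 hk1 hkτ hmin' S hSr hS (Or.inr (by simpa using hcon))
    simpa using this

end Pool.Agent.helper52.DM
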