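import Pool.Agent.helper52.DM.DirK

/-!
# `(k / τ) w` is an average of integral vectors that are almost equitable at the vertices
-/

namespace Pool.Agent.helper52.DM

open Finset Pool.Agent.helper52.DJ

variable {V A : Type*} [Fintype V] [DecidableEq V] [Fintype A] [DecidableEq A]

open Classical in
/-- right sides of the constraints -/
noncomputable def crK (D : DG V A) (k : ℤ) (w : A → ℤ) (α β : V → ℤ) : CI V A → ℝ
  | Sum.inl _ => 0
  | Sum.inr (Sum.inl a) => - (w a : ℝ)
  | Sum.inr (Sum.inr (Sum.inl U)) => if D.IsShore U then (k : ℝ) else 0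
  | Sum.inr (Sum.inr (Sum.inr (Sum.inl v))) => α v
  | Sum.inr (Sum.inr (Sum.inr (Sum.inr v))) => - (β v : ℝ)

/-- feasibility -/
structure FeasK (D : DG V A) (k : ℤ) (w : A → ℤ) (α β : V → ℤ) (x : A → ℝ) : Prop where
  nonneg : ∀ a, 0 ≤ x a
  le : ∀ a, x a ≤ w a
  cut : ∀ U, D.IsShore U → (k : ℝ) ≤ ∑ v ∈ U, D.net x v
  lo : ∀ v, α v ≤ D.net x v
  hi : ∀ v, D.net x v ≤ β v

omit [DecidableEq A] in
lemma feas_iffK (D : DG V A) (k : ℤ) (w : A → ℤ) (α β : V → ℤ) (x : A → ℝ) :
    FeasK D k w α β x ↔ ∀ j, crK D k w α β j ≤ cl D j x := by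
  constructor
  · intro h j
    rcases j with a | a | U | v | v
    · simpa [crK, cl] using h.nonneg a
    · simpa [crK, cl] using h.le a
    · by_cases hU : D.IsShore U
      · have := h.cut U hU
        simpa [crK, cl, hU] using this
      · simp [crK, cl, hU]
    · simpa [crK, cl] using h.lo v
    · simpa [crK, cl] using h.hi v
  · intro h
    refine ⟨fun a => ?_, fun a => ?_, fun U hU => ?_, fun v => ?_, fun v => ?_⟩
    · simpa [crK, cl] using h (Sum.inl a)
    · simpa [crK, cl] using h (Sum.inr (Sum.inl a))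
    · simpa [crK, cl, hU] using h (Sum.inr (Sum.inr (Sum.inl U)))
    · simpa [crK, cl] using h (Sum.inr (Sum.inr (Sum.inr (Sum.inl v))))
    · simpa [crK, cl] using h (Sum.inr (Sum.inr (Sum.inr (Sum.inr v))))

theorem mem_hull_feasK (D : DG V A) (k : ℤ) (w : A → ℤ) (α β : V → ℤ) (x : A → ℝ) (hx : FeasK D k w α β x) :
    x ∈ convexHull ℝ {x | FeasK D k w α β x ∧ ∀ a, IsInt (x a)} := by
  have h := mem_hull (cl D) (crK D k w α β) {x | ∀ a, IsInt (x a)} (by
      intro y hy
      have : ∃ a, y a ≠ 0 := by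
        by_contra hcon
        push Not at hcon
        exact hy (funext hcon)
      obtain ⟨a, ha⟩ := this
      rcases lt_or_gt_of_ne ha with h | h
      · exact ⟨Sum.inl a, by simpa [cl] using h⟩
      · exact ⟨Sum.inr (Sum.inl a), by simpa [cl] using h⟩)
    (by
      intro x hx hxI
      rw [← feas_iffK] at hx
      simp only [Set.mem_ofPred_eq, not_forall] at hxI
      obtain ⟨y, hy0, h1, h2, h3⟩ := exists_directionK D k x hx.cut hxI
      refine ⟨y, hy0, fun j hj => ?_⟩
      rcases j with a | a | U | v | v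
      · have : x a = 0 := by simpa [crK, cl] using hj
        have := h1 a ⟨0, by simpa using this⟩
        simpa [cl] using this
      · have : x a = w a := by simpa [crK, cl] using hj
        have := h1 a ⟨w a, this⟩
        simpa [cl] using this
      · by_cases hU : D.IsShore U
        · have h4 : ∑ v ∈ U, D.net x v = (k : ℝ) := by simpa [crK, cl, hU] using hj
          have := h3 U hU h4
          simpa [cl, hU] using this
        · simp [cl, hU]
      · have h4 : D.net x v = α v := by simpa [crK, cl] using hj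
        have := h2 v ⟨α v, h4⟩
        simpa [cl] using this
      · have h4 : D.net x v = β v := by simpa [crK, cl] using hj
        have := h2 v ⟨β v, h4⟩
        simpa [cl] using this) _ x ((feas_iffK D k w α β x).1 hx) rfl
  have e : {x | (∀ j, crK D k w α β j ≤ cl D j x) ∧ x ∈ {x : A → ℝ | ∀ a, IsInt (x a)}}
      = {x | FeasK D k w α β x ∧ ∀ a, IsInt (x a)} := by
    ext x
    simp only [Set.mem_ofPred_eq, feas_iffK]
  rw [e] at h
  exact h

/-- The integral vectors used in the decomposition of `(k / τ) w`. -/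
structure GoodK (D : DG V A) (k : ℤ) (w : A → ℤ) (q m : V → ℤ) (x : A → ℤ) : Prop where
  nonneg : ∀ a, 0 ≤ x a
  le : ∀ a, x a ≤ w a
  cut : ∀ U, D.IsShore U → k ≤ ∑ v ∈ U, D.net x v
  lo : ∀ v, q v ≤ D.net x v
  hi : ∀ v, D.net x v ≤ q v + (if m v = 0 then 0 else 1)

theorem exists_averageK (D : DG V A) (w : A → ℤ) (hw : ∀ a, 0 ≤ w a) (t k : ℤ) (ht : 1 ≤ t)
    (hk0 : 0 ≤ k) (hkt : k ≤ t) (q m : V → ℤ)
    (hqm : ∀ v, k * D.net w v = t * q v + m v) (hm0 : ∀ v, 0 ≤ m v) (hm1 : ∀ v, m v < t)
    (hcut : ∀ U, D.IsShore U → t ≤ ∑ v ∈ U, D.net w v) :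
    ∃ (ι : Type) (_ : Fintype ι) (p : ι → ℝ) (x : ι → A → ℤ), (∀ i, 0 < p i) ∧ ∑ i, p i = 1 ∧
      (∀ i, GoodK D k w q m (x i)) ∧ ∀ a, ∑ i, p i * x i a = k * w a / t := by
  classical
  have htR : (1 : ℝ) ≤ t := by exact_mod_cast ht
  have htpos : (0 : ℝ) < t := by linarith
  set x0 : A → ℝ := fun a => (k : ℝ) * (w a : ℝ) / t with hx0
  have hnet : ∀ v, D.net x0 v = (k : ℝ) * ((D.net w v : ℤ) : ℝ) / t := by
    intro v
    have : x0 = ((k : ℝ) / t : ℝ) • (fun a => (w a : ℝ)) := by
      funext a; simp only [hx0, Pi.smul_apply, smul_eq_mul]; ring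
    rw [this, ← netL_apply, map_smul, netL_apply, net_cast, smul_eq_mul]
    ring
  have hfeas : FeasK D k w q (fun v => q v + (if m v = 0 then 0 else 1)) x0 := by
    refine ⟨fun a => ?_, fun a => ?_, fun U hU => ?_, fun v => ?_, fun v => ?_⟩
    · have h1 : (0 : ℝ) ≤ w a := by exact_mod_cast hw a
      have h2 : (0 : ℝ) ≤ k := by exact_mod_cast hk0
      simp only [hx0]; positivity
    · simp only [hx0]
      rw [div_le_iff₀ htpos]
      have h1 : (0 : ℝ) ≤ w a := by exact_mod_cast hw a
      have h2 : (k : ℝ) ≤ t := by exact_mod_cast hkt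
      nlinarith
    · have h := hcut U hU
      simp only [hnet]
      rw [← sum_div, le_div_iff₀ htpos, ← mul_sum]
      have h1 : (t : ℝ) ≤ ∑ v ∈ U, ((D.net w v : ℤ) : ℝ) := by exact_mod_cast h
      have h2 : (0 : ℝ) ≤ k := by exact_mod_cast hk0
      exact mul_le_mul_of_nonneg_left h1 h2
    · rw [hnet, le_div_iff₀ htpos]
      have h1 := hqm v
      have h2 := hm0 v
      have : q v * t ≤ k * D.net w v := by rw [h1]; nlinarith
      exact_mod_cast this
    · rw [hnet, div_le_iff₀ htpos]
      have h1 := hqm v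
      have h2 := hm1 v
      have : k * D.net w v ≤ (q v + (if m v = 0 then 0 else 1)) * t := by
        rw [h1]
        split_ifs with h
        · rw [h]; nlinarith
        · nlinarith
      exact_mod_cast this
  have hmem := mem_hull_feasK D k w q _ x0 hfeas
  rw [mem_convexHull_iff_exists_fintype] at hmem
  obtain ⟨ι, _, p, z, hp0, hp1, hz, hsum⟩ := hmem
  choose hzf hzi using hz
  choose y hy using hzi
  have hsub : ∀ F : ι → ℝ, (∀ i, ¬ 0 < p i → F i = 0) → ∑ i : {i // 0 < p i}, F i = ∑ i, F i := by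
    intro F hF
    rw [← sum_filter_add_sum_filter_not univ (fun i => 0 < p i) F,
      sum_eq_zero (s := univ.filter fun i => ¬ 0 < p i) (fun i hi => hF i (mem_filter.1 hi).2), add_zero]
    exact (sum_subtype (p := fun i => 0 < p i) (univ.filter fun i => 0 < p i) (fun i => by simp) F).symm
  have hz0 : ∀ i, ¬ 0 < p i → p i = 0 := fun i hi => le_antisymm (not_lt.1 hi) (hp0 i)
  refine ⟨{i // 0 < p i}, inferInstance, fun i => p i, fun i => y i, fun i => i.2, ?_, ?_, ?_⟩
  · rw [← hp1]
    exact hsub p hz0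
  · intro i
    have hz' := hzf i
    have e : z i = fun a => (y i a : ℝ) := funext (hy i)
    rw [e] at hz'
    refine ⟨fun a => ?_, fun a => ?_, fun U hU => ?_, fun v => ?_, fun v => ?_⟩
    · have := hz'.nonneg a; exact_mod_cast this
    · have := hz'.le a; exact_mod_cast this
    · have := hz'.cut U hU
      simp only [net_cast] at this
      exact_mod_cast this
    · have := hz'.lo v
      rw [net_cast] at this
      exact_mod_cast this
    · have := hz'.hi v
      rw [net_cast] at this
      exact_mod_cast this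
  · intro a
    have h1 : ∑ i, p i * (y i a : ℝ) = k * w a / t := by
      have := congrFun hsum a
      rw [Finset.sum_apply] at this
      simp only [Pi.smul_apply, smul_eq_mul, hy, hx0] at this
      exact this
    rw [← h1]
    exact hsub (fun i => p i * (y i a : ℝ)) (fun i hi => by simp only [hz0 i hi, zero_mul])

end Pool.Agent.helper52.DM
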