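import Pool.Agent.helper52.DM.Avg
import Pool.Agent.helper52.DJ.Decomp

/-!
# A decomposition of `w / τ` with few net vectors
-/

namespace Pool.Agent.helper52.DM

open Finset Pool.Agent.helper52.DJ

universe u

variable {V : Type u} {A : Type*} [Fintype V] [DecidableEq V] [Fintype A] [DecidableEq A]

/-- `u` and `v` are in the same component of the underlying graph of the arcs of positive weight -/
def Conn (D : DG V A) (w : A → ℕ) : V → V → Prop :=
  Relation.EqvGen fun x y => ∃ a, 0 < w a ∧ D.tail a = x ∧ D.head a = y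

/-- the vertices `v` such that `τ` does not divide `k` times the net outflow of `v` -/
def res (D : DG V A) (w : A → ℕ) (τ k : ℕ) : Finset V := univ.filter fun v => ¬ (τ : ℤ) ∣ k * D.dem w v

/-- the sum of `r (τ - r)` over the residues `r` modulo `τ` of `k` times the net outflows -/
def vari (D : DG V A) (w : A → ℕ) (τ k : ℕ) : ℤ :=
  ∑ v, (k * D.dem w v) % (τ : ℤ) * ((τ : ℤ) - (k * D.dem w v) % (τ : ℤ))

omit [Fintype V] [DecidableEq A] in
/-- integral vectors below `w` have net outflow `0` at every component -/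
lemma sum_net_closed (D : DG V A) (w : A → ℕ) (x : A → ℤ) (h0 : ∀ a, 0 ≤ x a) (h1 : ∀ a, x a ≤ w a)
    (C : Finset V) (hC : ∀ a, 0 < w a → (D.tail a ∈ C ↔ D.head a ∈ C)) : ∑ v ∈ C, D.net x v = 0 := by
  classical
  rw [sum_net, sub_eq_zero, sum_filter, sum_filter]
  refine sum_congr rfl fun a _ => ?_
  rcases Nat.eq_zero_or_pos (w a) with h | h
  · have e : x a = 0 := by
      have := h0 a
      have := h1 a
      rw [h] at this
      simp at this
      omega
    simp [e]
  · simp [hC a h]

/-- the possible differences of net vectors -/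
def diffs (D : DG V A) (w : A → ℕ) (τ k : ℕ) : Submodule ℝ (V → ℝ) where
  carrier := {y | (∀ v, v ∉ res D w τ k → y v = 0) ∧
    ∀ C : Finset V, (∀ a, 0 < w a → (D.tail a ∈ C ↔ D.head a ∈ C)) → ∑ v ∈ C, y v = 0}
  add_mem' := by
    rintro a b ⟨h1, h2⟩ ⟨h3, h4⟩
    refine ⟨fun v hv => ?_, fun C hC => ?_⟩
    · simp [h1 v hv, h3 v hv]
    · simp [sum_add_distrib, h2 C hC, h4 C hC]
  zero_mem' := ⟨fun _ _ => rfl, fun _ _ => by simp⟩
  smul_mem' := by
    rintro c a ⟨h1, h2⟩
    refine ⟨fun v hv => ?_, fun C hC => ?_⟩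
    · simp [h1 v hv]
    · simp [← mul_sum, h2 C hC]

omit [DecidableEq A] in
lemma finrank_le_of_diffs (D : DG V A) (w : A → ℕ) (τ k : ℕ) (S : Finset V)
    (hS : ∀ u ∈ S, ∀ v ∈ S, Conn D w u v → u = v) (W : Submodule ℝ (V → ℝ)) (hW : W ≤ diffs D w τ k) :
    Module.finrank ℝ W ≤ (res D w τ k \ S).card := by
  classical
  let R : (V → ℝ) →ₗ[ℝ] ({v // v ∈ res D w τ k \ S} → ℝ) := LinearMap.funLeft ℝ ℝ Subtype.val
  have hinj : Function.Injective (R.domRestrict W) := by
    rw [← LinearMap.ker_eq_bot, LinearMap.ker_eq_bot']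
    rintro ⟨y, hy⟩ hR
    obtain ⟨h1, h2⟩ := hW hy
    have h3 : ∀ v, v ∈ res D w τ k → v ∉ S → y v = 0 := by
      intro v hv hvS
      have := congrFun hR ⟨v, mem_sdiff.2 ⟨hv, hvS⟩⟩
      simpa [R] using this
    have h4 : ∀ v, v ∉ S → y v = 0 := fun v hvS => by
      by_cases hv : v ∈ res D w τ k
      · exact h3 v hv hvS
      · exact h1 v hv
    have h5 : ∀ v, y v = 0 := by
      intro v
      by_cases hvS : v ∈ S
      · have h6 := h2 (univ.filter fun u => Conn D w v u) (fun a ha => by
          simp only [mem_filter, mem_univ, true_and]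
          have hst : Conn D w (D.tail a) (D.head a) := Relation.EqvGen.rel _ _ ⟨a, ha, rfl, rfl⟩
          constructor
          · exact fun h => Relation.EqvGen.trans _ _ _ h hst
          · exact fun h => Relation.EqvGen.trans _ _ _ h (Relation.EqvGen.symm _ _ hst))
        rw [sum_eq_single v] at h6
        · exact h6
        · intro u hu hne
          refine h4 u fun huS => hne ?_
          exact (hS v hvS u huS (by simpa using hu)).symm
        · intro hv
          exfalso
          apply hv
          simp only [mem_filter, mem_univ, true_and]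
          exact Relation.EqvGen.refl _
      · exact h4 v hvS
    exact Subtype.ext (funext h5)
  have h := LinearMap.finrank_le_finrank_of_injective hinj
  rwa [Module.finrank_fintype_fun_eq_card, Fintype.card_coe] at h

/-- **Few atoms.** -/
theorem exists_few (D : DG V A) (w : A → ℕ) (τ k : ℕ) (hk1 : 1 ≤ k) (hkτ : k < τ)
    (hcut : ∀ U, D.IsShore U → τ ≤ D.wt w U) (S : Finset V)
    (hS : ∀ u ∈ S, ∀ v ∈ S, Conn D w u v → u = v) :
    ∃ (ι : Type u) (_ : Fintype ι) (p : ι → ℝ) (x : ι → A → ℤ),
      SysK {U | D.IsShore U} p (fun i v => D.net (x i) v) (fun v => (k * D.dem w v) / (τ : ℤ))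
        (fun v => (k * D.dem w v) % (τ : ℤ)) (fun v => D.dem w v) (τ : ℤ) (k : ℤ) ∧
      (∀ i, GoodK D k (fun a => (w a : ℤ)) (fun v => (k * D.dem w v) / (τ : ℤ))
        (fun v => (k * D.dem w v) % (τ : ℤ)) (x i)) ∧
      Fintype.card ι ≤ (res D w τ k \ S).card + 1 := by
  classical
  have hτ0 : (0 : ℤ) < τ := by exact_mod_cast (by omega : 0 < τ)
  have hτ1 : (1 : ℤ) ≤ τ := by omega
  set q : V → ℤ := fun v => (k * D.dem w v) / (τ : ℤ) with hq
  set m : V → ℤ := fun v => (k * D.dem w v) % (τ : ℤ) with hm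
  have hqm : ∀ v, k * D.dem w v = τ * q v + m v := fun v => (Int.mul_ediv_add_emod _ _).symm
  have hm0 : ∀ v, 0 ≤ m v := fun v => Int.emod_nonneg _ hτ0.ne'
  have hm1 : ∀ v, m v < τ := fun v => Int.emod_lt_of_pos _ hτ0
  obtain ⟨ι0, _, p0, x0, hp0, hp01, hx0, hxs0⟩ := exists_averageK D (fun a => (w a : ℤ))
    (fun a => Int.natCast_nonneg _) τ k hτ1 (Int.natCast_nonneg _) (by exact_mod_cast hkτ.le)
    q m hqm hm0 hm1 (fun U hU => by
      have := hcut U hU
      have e := wt_eq D w hU
      simp only [DG.dem] at e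
      rw [← e]
      exact_mod_cast this)
  have havg : ∀ v, ∑ i, p0 i * ((D.net (x0 i) v : ℤ) : ℝ) = (q v : ℝ) + m v / ((τ : ℤ) : ℝ) := by
    intro v
    have e : ∑ i, p0 i * ((D.net (x0 i) v : ℤ) : ℝ) = netL D v (∑ i, p0 i • fun a => (x0 i a : ℝ)) := by
      rw [map_sum]
      refine sum_congr rfl fun i _ => ?_
      rw [map_smul, netL_apply, net_cast, smul_eq_mul]
    have e2 : (∑ i, p0 i • fun a => (x0 i a : ℝ)) = ((k : ℝ) / (τ : ℝ)) • fun a => (w a : ℝ) := by
      funext a
      rw [Finset.sum_apply]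
      simp only [Pi.smul_apply, smul_eq_mul]
      rw [hxs0 a]
      push_cast
      ring
    rw [e, e2, map_smul, netL_apply, smul_eq_mul]
    have e3 : D.net (fun a => (w a : ℝ)) v = ((D.dem w v : ℤ) : ℝ) := by
      have := net_cast D (fun a => (w a : ℤ)) v
      simpa [DG.dem] using this
    have e4 : (k : ℝ) * ((D.dem w v : ℤ) : ℝ) = τ * q v + m v := by exact_mod_cast hqm v
    have : (τ : ℝ) ≠ 0 := by
      have : τ ≠ 0 := by omega
      exact_mod_cast this
    rw [e3, div_mul_eq_mul_div, e4]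
    push_cast
    field_simp
  set Z : ι0 → V → ℝ := fun i v => ((D.net (x0 i) v : ℤ) : ℝ) with hZ
  have hP : (fun v => (q v : ℝ) + m v / ((τ : ℤ) : ℝ)) ∈ convexHull ℝ (Set.range Z) := by
    have h1 := (convex_convexHull ℝ (Set.range Z)).sum_mem (t := univ) (w := p0) (z := Z)
      (fun i _ => (hp0 i).le) hp01 (fun i _ => subset_convexHull _ _ ⟨i, rfl⟩)
    have e : ∑ i, p0 i • Z i = fun v => (q v : ℝ) + m v / ((τ : ℤ) : ℝ) := by
      funext v
      rw [Finset.sum_apply]
      simp only [Pi.smul_apply, smul_eq_mul, hZ]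
      exact havg v
    rwa [e] at h1
  obtain ⟨ι, _, z, p, hz, hai, hp, hps, hpz⟩ := eq_pos_convex_span_of_mem_convexHull hP
  choose j hj using fun i => hz (Set.mem_range_self i)
  have hzi : ∀ i v, z i v = ((D.net (x0 (j i)) v : ℤ) : ℝ) := fun i v => by rw [← hj i]
  refine ⟨ι, inferInstance, p, fun i => x0 (j i), ?_, fun i => hx0 (j i), ?_⟩
  · exact
      { ppos := hp
        psum := hps
        k1 := by exact_mod_cast hk1
        kt := by exact_mod_cast hkτ
        m0 := hm0
        m1 := hm1
        em := hqm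
        z01 := by
          intro i v
          have h1 := (hx0 (j i)).lo v
          have h2 := (hx0 (j i)).hi v
          change D.net (x0 (j i)) v = q v ∨ D.net (x0 (j i)) v = q v + 1
          split_ifs at h2 with h
          · left; omega
          · omega
        zsum := fun i => sum_net_univ D _
        zcut := fun i U hU => (hx0 (j i)).cut U hU
        avg := by
          intro v
          have := congrFun hpz v
          rw [Finset.sum_apply] at this
          simp only [Pi.smul_apply, smul_eq_mul, hzi] at this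
          exact this }
  · have h1 := hai.card_le_finrank_succ
    refine h1.trans (Nat.add_le_add_right ?_ 1)
    refine finrank_le_of_diffs D w τ k S hS _ ?_
    rw [vectorSpan_def, Submodule.span_le]
    rintro y ⟨a, ⟨i, rfl⟩, b, ⟨i', rfl⟩, rfl⟩
    refine ⟨fun v hv => ?_, fun C hC => ?_⟩
    · have hmv : m v = 0 := by
        simp only [res, mem_filter, mem_univ, true_and, not_not] at hv
        exact Int.emod_eq_zero_of_dvd hv
      have g : ∀ i, D.net (x0 (j i)) v = q v := by
        intro i
        have h1 := (hx0 (j i)).lo v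
        have h2 := (hx0 (j i)).hi v
        rw [if_pos hmv] at h2
        omega
      simp [hzi, g]
    · have g : ∀ i, ∑ v ∈ C, D.net (x0 (j i)) v = 0 := fun i =>
        sum_net_closed D w _ (hx0 (j i)).nonneg (hx0 (j i)).le C hC
      have g' : ∀ i, ∑ v ∈ C, z i v = 0 := fun i => by
        have := g i
        simp only [hzi]
        exact_mod_cast this
      simp [sum_sub_distrib, g']

/-- `c` is equitable for `(k / τ) w`: its net outflows are those of `(k / τ) w`, rounded down or up -/
def Equi (D : DG V A) (w : A → ℕ) (τ k : ℕ) (c : A → ℕ) : Prop :=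
  ∀ v, (k * D.dem w v) / (τ : ℤ) ≤ D.dem c v ∧
    D.dem c v ≤ (k * D.dem w v) / (τ : ℤ) + if (k * D.dem w v) % (τ : ℤ) = 0 then 0 else 1

/-- **The decomposition** for small variance or few vertices with nonzero residue. -/
theorem decomposition_few (D : DG V A) (w : A → ℕ) (τ k l : ℕ) (hk1 : 1 ≤ k) (hkτ : k < τ)
    (hcut : ∀ U, D.IsShore U → τ ≤ D.wt w U) (S : Finset V) (hSr : S ⊆ res D w τ k)
    (hS : ∀ u ∈ S, ∀ v ∈ S, Conn D w u v → u = v)
    (hV : vari D w τ k < (2 + l) * (τ : ℤ) ^ 2 - k * τ ∨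
      (vari D w τ k - (1 + l) * (τ : ℤ) ^ 2) * (k * ((res D w τ k).card + 1 - S.card) - τ)
        < (1 + l) * (τ : ℤ) ^ 2 * (τ - k)) :
    ∃ c c' : A → ℕ, (∀ a, w a = c a + c' a) ∧ (∀ U, D.IsShore U → k ≤ D.wt c U) ∧
      (∀ U, D.IsShore U → τ ≤ D.wt c' U + k + l) ∧ Equi D w τ k c := by
  classical
  have hτ0 : (0 : ℤ) < τ := by exact_mod_cast (by omega : 0 < τ)
  obtain ⟨ι, _, p, x, H, hx, hcard⟩ := exists_few D w τ k hk1 hkτ hcut S hS
  have hcd : (res D w τ k \ S).card + S.card = (res D w τ k).card := card_sdiff_add_card_eq_card hSr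
  have hK : (Fintype.card ι : ℤ) ≤ (res D w τ k).card + 1 - S.card := by
    have h1 : (Fintype.card ι : ℤ) ≤ ((res D w τ k \ S).card : ℤ) + 1 := by exact_mod_cast hcard
    have h2 : ((res D w τ k \ S).card : ℤ) + S.card = (res D w τ k).card := by exact_mod_cast hcd
    linarith
  obtain ⟨i, hi⟩ := exists_good_index_few H l _ (Int.natCast_nonneg l) hK hV
  have hx' := hx i
  have hcz : ∀ a, ((x i a).toNat : ℤ) = x i a := fun a => Int.toNat_of_nonneg (hx'.nonneg a)
  refine ⟨fun a => (x i a).toNat, fun a => w a - (x i a).toNat, ?_, ?_, ?_, ?_⟩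
  · intro a
    have h1 := hx'.le a
    change w a = (x i a).toNat + (w a - (x i a).toNat)
    omega
  · intro U hU
    have h1 := hx'.cut U hU
    have e := wt_eq D (fun a => (x i a).toNat) hU
    simp only [DG.dem, hcz] at e
    rw [← e] at h1
    exact_mod_cast h1
  · intro U hU
    have h1 := hi U hU
    have e := wt_eq D (fun a => (x i a).toNat) hU
    simp only [DG.dem, hcz] at e
    rw [← e] at h1
    have e2 := wt_eq D w hU
    rw [← e2] at h1
    have e4 : D.wt w U = D.wt (fun a => (x i a).toNat) U + D.wt (fun a => w a - (x i a).toNat) U := by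
      simp only [DG.wt]
      rw [← sum_add_distrib]
      refine sum_congr rfl fun a _ => ?_
      have := hx'.le a
      omega
    have e5 : (D.wt w U : ℤ) = D.wt (fun a => (x i a).toNat) U + D.wt (fun a => w a - (x i a).toNat) U := by
      exact_mod_cast e4
    have : (τ : ℤ) ≤ D.wt (fun a => w a - (x i a).toNat) U + k + l := by linarith
    exact_mod_cast this
  · intro v
    simp only [DG.dem, hcz]
    exact ⟨hx'.lo v, hx'.hi v⟩

end Pool.Agent.helper52.DM
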