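import Pool.Agent.helper52.DM.Gap

/-!
# Final forms
-/

namespace Pool.Agent.helper52.DM

open Finset Pool.Agent.helper52.DJ

universe u

variable {V : Type u} {A : Type*} [Fintype V] [DecidableEq V] [Fintype A] [DecidableEq A]

/-- every dicut has weight at least `τ` -/
def DicutsAtLeast (D : DG V A) (w : A → ℕ) (τ : ℕ) : Prop := ∀ U, D.IsShore U → τ ≤ D.wt w U

/-- `w = c + c'` where every dicut has `c`-weight at least `a` and `c'`-weight at least `b` -/
def Splits (D : DG V A) (w : A → ℕ) (a b : ℕ) : Prop :=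
  ∃ c c' : A → ℕ, (∀ x, w x = c x + c' x) ∧ DicutsAtLeast D c a ∧ DicutsAtLeast D c' b

/-- no two vertices of `S` are in the same component of the graph of the arcs of positive weight -/
def Sep (D : DG V A) (w : A → ℕ) (S : Finset V) : Prop := ∀ u ∈ S, ∀ v ∈ S, Conn D w u v → u = v

/-- the statement for minimally non-packing clutters -/
def Gap (D : DG V A) (w : A → ℕ) : Prop :=
  ∃ τ : ℕ, 3 ≤ τ ∧ DicutsAtLeast D w τ ∧ (∃ U, D.IsShore U ∧ D.wt w U = τ) ∧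
    (∀ g, 2 ≤ g → g ∣ τ → g + 4 ≤ (nres D w g).card) ∧
    ∀ k, 1 ≤ k → k < τ → 2 * (τ : ℤ) ^ 2 - k * τ ≤ vari D w τ k ∧
      ∀ S : Finset V, S ⊆ res D w τ k → Sep D w S →
        (τ : ℤ) ^ 2 * (τ - k)
          ≤ (vari D w τ k - (τ : ℤ) ^ 2) * (k * ((res D w τ k).card + 1 - S.card) - τ)

theorem splits_few (D : DG V A) (w : A → ℕ) (τ k l : ℕ) (hk1 : 1 ≤ k) (hkτ : k < τ)
    (hcut : DicutsAtLeast D w τ) (S : Finset V) (hSr : S ⊆ res D w τ k) (hS : Sep D w S)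
    (hV : vari D w τ k < (2 + l) * (τ : ℤ) ^ 2 - k * τ ∨
      (vari D w τ k - (1 + l) * (τ : ℤ) ^ 2) * (k * ((res D w τ k).card + 1 - S.card) - τ)
        < (1 + l) * (τ : ℤ) ^ 2 * (τ - k)) : Splits D w k (τ - k - l) := by
  obtain ⟨c, c', h1, h2, h3, _⟩ := decomposition_few D w τ k l hk1 hkτ hcut S hSr hS hV
  exact ⟨c, c', h1, h2, fun U hU => by have := h3 U hU; omega⟩

theorem splits_div (D : DG V A) (w : A → ℕ) (g k : ℕ) (hg : 2 ≤ g) (hk : 1 ≤ k)
    (hcut : DicutsAtLeast D w (g * k)) (hc : (nres D w g).card ≤ g + 3) :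
    Splits D w k ((g - 1) * k) := by
  obtain ⟨c, c', h1, h2, h3, _⟩ := decomposition_div D w g k hg hk hcut hc
  refine ⟨c, c', h1, h2, fun U hU => ?_⟩
  have h4 := h3 U hU
  have e : g * k = (g - 1) * k + k := by
    obtain ⟨g', rfl⟩ : ∃ g', g = g' + 1 := ⟨g - 1, by omega⟩
    rw [Nat.add_sub_cancel, Nat.succ_mul]
  omega

end Pool.Agent.helper52.DM
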